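import Mathlib

/-!
# APS-fairness and PROP1 for weighted additive goods

For entitlements `w₁, ..., wₙ > 0` with sum `1` (`n ≥ 2`), every APS-fair allocation of additive
goods is PROP1 (for all item sets and all valuations) if and only if `wᵢ ≤ 1/2` for all `i`.
If some `wᵢ > 1/2` there is a counterexample in which all agents have the same valuation and every
item has positive value.
-/

open Finset

namespace Pool.Agent.Results.MP_4956c5_co.ApsPropOne

set_option linter.unusedSectionVars false

variable {M : Type} [Fintype M] [DecidableEq M]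

/-- A price vector: nonnegative prices with total price `1`. -/
def IsPrice (p : M → ℝ) : Prop := (∀ g, 0 ≤ p g) ∧ ∑ g, p g = 1

/-- The largest value of a bundle of price at most `w`, the maximum of a finite set. -/
noncomputable def bestValue (v p : M → ℝ) (w : ℝ) : ℝ :=
  sSup {x | ∃ S : Finset M, ∑ g ∈ S, p g ≤ w ∧ x = ∑ g ∈ S, v g}

/-- The AnyPrice share of an agent with additive valuation `v` and entitlement `w`: the minimum
over all price vectors of the largest value of an affordable bundle. -/
noncomputable def APS (v : M → ℝ) (w : ℝ) : ℝ :=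
  sInf {x | ∃ p : M → ℝ, IsPrice p ∧ x = bestValue v p w}

/-- An allocation: the bundles are pairwise disjoint and cover all items. -/
def IsAllocation {n : ℕ} (A : Fin n → Finset M) : Prop :=
  (∀ i j, i ≠ j → Disjoint (A i) (A j)) ∧ ∀ g, ∃ i, g ∈ A i

/-- Every agent receives at least the AnyPrice share. -/
def APSFair {n : ℕ} (w : Fin n → ℝ) (v : Fin n → M → ℝ) (A : Fin n → Finset M) : Prop :=
  ∀ i, APS (v i) (w i) ≤ ∑ g ∈ A i, v i g

/-- Weighted proportionality up to one item. -/
def PROP1 {n : ℕ} (w : Fin n → ℝ) (v : Fin n → M → ℝ) (A : Fin n → Finset M) : Prop :=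
  ∀ i, w i * ∑ g, v i g ≤ ∑ g ∈ A i, v i g ∨
    ∃ g, g ∉ A i ∧ w i * ∑ h, v i h ≤ ∑ h ∈ insert g (A i), v i h

/-! ### Basic facts on the share -/

theorem finite_values (v p : M → ℝ) (w : ℝ) :
    {x | ∃ S : Finset M, ∑ g ∈ S, p g ≤ w ∧ x = ∑ g ∈ S, v g}.Finite := by
  refine (Set.finite_range fun S : Finset M => ∑ g ∈ S, v g).subset ?_
  rintro x ⟨S, _, rfl⟩
  exact ⟨S, rfl⟩

theorem le_bestValue (v p : M → ℝ) (w : ℝ) (S : Finset M) (hS : ∑ g ∈ S, p g ≤ w) :
    ∑ g ∈ S, v g ≤ bestValue v p w :=
  le_csSup (finite_values v p w).bddAbove ⟨S, hS, rfl⟩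

theorem bestValue_le (v p : M → ℝ) (w : ℝ) (hw : 0 ≤ w) (c : ℝ)
    (h : ∀ S : Finset M, ∑ g ∈ S, p g ≤ w → ∑ g ∈ S, v g ≤ c) : bestValue v p w ≤ c := by
  refine csSup_le ⟨0, ∅, by simpa using hw, by simp⟩ ?_
  rintro x ⟨S, hS, rfl⟩
  exact h S hS

/-- The maximum in the definition of `bestValue` is attained. -/
theorem bestValue_attained (v p : M → ℝ) (w : ℝ) (hw : 0 ≤ w) :
    ∃ S : Finset M, ∑ g ∈ S, p g ≤ w ∧ bestValue v p w = ∑ g ∈ S, v g := by
  have hne : {x | ∃ S : Finset M, ∑ g ∈ S, p g ≤ w ∧ x = ∑ g ∈ S, v g}.Nonempty :=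
    ⟨0, ∅, by simpa using hw, by simp⟩
  exact hne.csSup_mem (finite_values v p w)

theorem finite_bestValues (v : M → ℝ) (w : ℝ) (hw : 0 ≤ w) :
    {x | ∃ p : M → ℝ, IsPrice p ∧ x = bestValue v p w}.Finite := by
  refine (Set.finite_range fun S : Finset M => ∑ g ∈ S, v g).subset ?_
  rintro x ⟨p, _, rfl⟩
  obtain ⟨S, _, h⟩ := bestValue_attained v p w hw
  exact ⟨S, h.symm⟩

/-- The minimum in the definition of `APS` is attained (when there is at least one item). -/
theorem APS_attained [Nonempty M] (v : M → ℝ) (w : ℝ) (hw : 0 ≤ w) :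
    ∃ p : M → ℝ, IsPrice p ∧ APS v w = bestValue v p w := by
  refine Set.Nonempty.csInf_mem ?_ (finite_bestValues v w hw)
  refine ⟨_, fun g => if g = Classical.arbitrary M then 1 else 0, ⟨fun g => ?_, by simp⟩, rfl⟩
  beta_reduce
  split_ifs <;> norm_num

theorem APS_le (v p : M → ℝ) (w : ℝ) (hw : 0 ≤ w) (hp : IsPrice p) (c : ℝ)
    (h : ∀ S : Finset M, ∑ g ∈ S, p g ≤ w → ∑ g ∈ S, v g ≤ c) : APS v w ≤ c :=
  (csInf_le (finite_bestValues v w hw).bddBelow ⟨p, hp, rfl⟩).trans (bestValue_le v p w hw c h)

/-- The AnyPrice share is at most the proportional share. -/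
theorem APS_le_prop (v : M → ℝ) (hv : ∀ g, 0 ≤ v g) (hV : 0 < ∑ g, v g) (w : ℝ) (hw : 0 ≤ w) :
    APS v w ≤ w * ∑ g, v g := by
  refine APS_le v (fun g => v g / ∑ h, v h) w hw
    ⟨fun g => div_nonneg (hv g) hV.le, by rw [← sum_div, div_self hV.ne']⟩ _ ?_
  intro S hS
  rw [← sum_div, div_le_iff₀ hV] at hS
  exact hS

/-! ### The positive part -/

/-- If the bundle `A` violates PROP1 for an agent with entitlement `w ≤ 1/2`, then for every price
vector there is an affordable bundle of larger value. -/
theorem key (v : M → ℝ) (hv : ∀ g, 0 ≤ v g) (w : ℝ) (hw : 0 < w) (hw2 : w ≤ 1 / 2)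
    (A : Finset M) (h1 : ∑ g ∈ A, v g < w * ∑ g, v g)
    (h2 : ∀ g, g ∉ A → ∑ h ∈ insert g A, v h < w * ∑ h, v h)
    (p : M → ℝ) (hp : IsPrice p) :
    ∃ S : Finset M, ∑ g ∈ S, p g ≤ w ∧ ∑ g ∈ A, v g < ∑ g ∈ S, v g := by
  set V := ∑ g, v g with hVdef
  set a := ∑ g ∈ A, v g with hadef
  set q := ∑ g ∈ A, p g with hqdef
  have ha0 : 0 ≤ a := sum_nonneg fun g _ => hv g
  have hV : 0 < V := by
    by_contra hneg
    have : w * V ≤ 0 := mul_nonpos_of_nonneg_of_nonpos hw.le (not_lt.1 hneg)
    linarith
  have hq0 : 0 ≤ q := sum_nonneg fun g _ => hp.1 g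
  have hvB : ∑ g ∈ Aᶜ, v g = V - a := by
    rw [hVdef, hadef, ← sum_add_sum_compl A v]; ring
  have hpB : ∑ g ∈ Aᶜ, p g = 1 - q := by
    rw [hqdef, ← hp.2, ← sum_add_sum_compl A p]; ring
  have h2' : ∀ g, g ∉ A → a + v g < w * V := by
    intro g hg
    have := h2 g hg
    rw [sum_insert hg] at this
    linarith
  by_cases hc : a ≤ V * q
  · -- take a minimal bundle outside `A` that is worth more than `a` and more than `V` times
    -- its price
    set F : Finset (Finset M) := (Aᶜ).powerset.filter fun S =>
      a < ∑ g ∈ S, v g ∧ V * ∑ g ∈ S, p g ≤ ∑ g ∈ S, v g with hF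
    have hne : F.Nonempty := by
      refine ⟨Aᶜ, ?_⟩
      rw [hF, mem_filter]
      refine ⟨mem_powerset_self _, ?_, ?_⟩
      · rw [hvB]
        have : w * V ≤ 1 / 2 * V := mul_le_mul_of_nonneg_right hw2 hV.le
        linarith
      · rw [hvB, hpB]
        nlinarith
    obtain ⟨S, hSF, hmin⟩ := exists_min_image F card hne
    rw [hF, mem_filter, mem_powerset] at hSF
    obtain ⟨hSB, hSv, hSp⟩ := hSF
    have hex : ∃ j ∈ S, ∑ g ∈ S.erase j, v g ≤ a := by
      by_contra hno
      push Not at hno
      have hd : ∀ j ∈ S, ∑ g ∈ S.erase j, v g < V * ∑ g ∈ S.erase j, p g := by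
        intro j hj
        by_contra hge
        have hmem : S.erase j ∈ F := by
          rw [hF, mem_filter, mem_powerset]
          exact ⟨(erase_subset _ _).trans hSB, hno j hj, not_lt.1 hge⟩
        have := hmin _ hmem
        rw [card_erase_of_mem hj] at this
        have : 0 < S.card := card_pos.2 ⟨j, hj⟩
        omega
      have hd' : ∀ j ∈ S, 0 ≤ v j - V * p j := by
        intro j hj
        have e1 := add_sum_erase S v hj
        have e2 := add_sum_erase S p hj
        have e3 := hd j hj
        rw [← e1, ← e2] at hSp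
        nlinarith
      have hSne : S.Nonempty := by
        rw [nonempty_iff_ne_empty]
        rintro rfl
        rw [sum_empty] at hSv
        linarith
      obtain ⟨j, hj⟩ := hSne
      have h3 := hd j hj
      have h4 : 0 ≤ ∑ g ∈ S.erase j, (v g - V * p g) :=
        sum_nonneg fun g hg => hd' g (mem_of_mem_erase hg)
      rw [sum_sub_distrib, ← mul_sum] at h4
      linarith
    obtain ⟨j, hj, hja⟩ := hex
    refine ⟨S, ?_, hSv⟩
    have hjA : j ∉ A := by
      have := hSB hj
      rwa [mem_compl] at this
    have h3 := h2' j hjA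
    have h4 : ∑ g ∈ S, v g < w * V := by
      rw [← add_sum_erase S v hj]
      linarith
    have h5 : V * ∑ g ∈ S, p g < V * w := by linarith
    exact (lt_of_mul_lt_mul_left h5 hV.le).le
  · push Not at hc
    have hqw : q < w := by
      have : V * q < V * w := by linarith
      exact lt_of_mul_lt_mul_left this hV.le
    by_cases hex : ∃ g, g ∉ A ∧ 0 < v g ∧ q + p g ≤ w
    · obtain ⟨g, hgA, hvg, hpg⟩ := hex
      refine ⟨insert g A, ?_, ?_⟩
      · rw [sum_insert hgA]; linarith
      · rw [sum_insert hgA]; linarith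
    · exfalso
      push Not at hex
      have ht : 0 < w * V - a := by linarith
      have h3 : ∀ g ∈ Aᶜ, v g * (w - q) ≤ (w * V - a) * p g := by
        intro g hg
        rw [mem_compl] at hg
        rcases (hv g).eq_or_lt with h0 | h0
        · rw [← h0, zero_mul]
          exact mul_nonneg ht.le (hp.1 g)
        · have e1 := hex g hg h0
          have e2 := h2' g hg
          exact mul_le_mul (by linarith) (by linarith) (by linarith) ht.le
      have h4 := sum_le_sum h3
      rw [← sum_mul, ← mul_sum, hvB, hpB] at h4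
      nlinarith

/-- For entitlement at most `1/2`, a bundle worth at least the AnyPrice share satisfies PROP1. -/
theorem prop1_of_APS_le (v : M → ℝ) (hv : ∀ g, 0 ≤ v g) (w : ℝ) (hw : 0 < w) (hw2 : w ≤ 1 / 2)
    (A : Finset M) (hA : APS v w ≤ ∑ g ∈ A, v g) :
    w * ∑ g, v g ≤ ∑ g ∈ A, v g ∨ ∃ g, g ∉ A ∧ w * ∑ h, v h ≤ ∑ h ∈ insert g A, v h := by
  by_contra hcon
  push Not at hcon
  obtain ⟨h1, h2⟩ := hcon
  have hne : Nonempty M := by
    by_contra hemp
    rw [not_nonempty_iff] at hemp
    have : ∑ g, v g = 0 := by simp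
    rw [this, mul_zero] at h1
    have := sum_nonneg (s := A) fun g _ => hv g
    linarith
  obtain ⟨p, hp, hpe⟩ := APS_attained v w hw.le
  obtain ⟨S, hS, hSv⟩ := key v hv w hw hw2 A h1 h2 p hp
  have := le_bestValue v p w S hS
  linarith

/-! ### The counterexample when some entitlement exceeds `1/2` -/

section Counterexample

variable {n : ℕ}

/-- The items: one big item `none` and `c j` small items for each agent `j`. -/
abbrev Items (c : Fin n → ℕ) : Type := Option (Σ j : Fin n, Fin (c j))

/-- The common valuation: the big item is worth `K`, each small item is worth `1`. -/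
def val (c : Fin n → ℕ) (K : ℝ) : Items c → ℝ
  | none => K
  | some _ => 1

/-- The agent who receives the item. -/
def owner (c : Fin n → ℕ) (i0 : Fin n) : Items c → Fin n
  | none => i0
  | some x => x.1

theorem sum_val (c : Fin n → ℕ) (K : ℝ) : ∑ g, val c K g = K + ∑ j, (c j : ℝ) := by
  rw [Fintype.sum_option]
  simp [val]

theorem sum_owner_ne (c : Fin n → ℕ) (i0 : Fin n) (K : ℝ) (j : Fin n) (hj : j ≠ i0) :
    ∑ g ∈ univ.filter (fun g => owner c i0 g = j), val c K g = c j := by
  rw [sum_filter, Fintype.sum_option, Fintype.sum_sigma]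
  have e1 : (if owner c i0 none = j then val c K none else 0) = 0 := if_neg fun h => hj h.symm
  have e2 : ∀ b : Fin n, b ≠ j → ∀ y : Fin (c b),
      (if owner c i0 (some ⟨b, y⟩) = j then val c K (some ⟨b, y⟩) else 0) = 0 :=
    fun b hb y => if_neg hb
  have e3 : ∀ y : Fin (c j),
      (if owner c i0 (some ⟨j, y⟩) = j then val c K (some ⟨j, y⟩) else 0) = 1 :=
    fun y => if_pos rfl
  rw [e1, zero_add, sum_eq_single j]
  · rw [sum_congr rfl fun y _ => e3 y]
    simp
  · intro b _ hb
    exact sum_eq_zero fun y _ => e2 b hb y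
  · simp

theorem sum_owner_eq (c : Fin n → ℕ) (i0 : Fin n) (K : ℝ) (h0 : c i0 = 0) :
    ∑ g ∈ univ.filter (fun g => owner c i0 g = i0), val c K g = K := by
  rw [sum_filter, Fintype.sum_option, Fintype.sum_sigma]
  have e1 : (if owner c i0 none = i0 then val c K none else 0) = K := if_pos rfl
  have e2 : ∀ b : Fin n, b ≠ i0 → ∀ y : Fin (c b),
      (if owner c i0 (some ⟨b, y⟩) = i0 then val c K (some ⟨b, y⟩) else 0) = 0 :=
    fun b hb y => if_neg hb
  rw [e1, sum_eq_zero, add_zero]
  intro j _
  by_cases hj : j = i0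
  · subst hj
    have : IsEmpty (Fin (c j)) := by rw [h0]; infer_instance
    exact Fintype.sum_empty _
  · exact sum_eq_zero fun y _ => e2 j hj y

end Counterexample

/-- **Theorem.** Let `n ≥ 2` and let `w` be entitlements (`wᵢ > 0`, sum `1`).  Equivalent are:
all entitlements are at most `1/2`; every APS-fair allocation of additive goods is PROP1; the same
for instances in which all agents have the same valuation and every item has positive value.
In particular the implication fails whenever some entitlement exceeds `1/2`. -/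
theorem result (n : ℕ) (hn : 2 ≤ n) (w : Fin n → ℝ) (hw : ∀ i, 0 < w i) (hsum : ∑ i, w i = 1) :
    List.TFAE [
      ∀ i, w i ≤ 1 / 2,
      ∀ (M : Type) [Fintype M] [DecidableEq M] (v : Fin n → M → ℝ), (∀ i g, 0 ≤ v i g) →
        ∀ A : Fin n → Finset M, IsAllocation A → APSFair w v A → PROP1 w v A,
      ∀ (M : Type) [Fintype M] [DecidableEq M] (u : M → ℝ), (∀ g, 0 < u g) →
        ∀ A : Fin n → Finset M, IsAllocation A → APSFair w (fun _ => u) A →
          PROP1 w (fun _ => u) A] := by
  tfae_have 1 → 2 := by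
    intro h M _ _ v hv A _ hfair i
    exact prop1_of_APS_le (v i) (hv i) (w i) (hw i) (h i) (A i) (hfair i)
  tfae_have 2 → 3 := by
    intro h M _ _ u hu A hA hfair
    exact h M (fun _ => u) (fun _ g => (hu g).le) A hA hfair
  tfae_have 3 → 1 := by
    intro h i0
    by_contra hi0
    push Not at hi0
    -- another agent
    obtain ⟨j0, hj0⟩ : ∃ j0 : Fin n, j0 ≠ i0 := by
      have : Nontrivial (Fin n) := Fin.nontrivial_iff_two_le.2 hn
      exact exists_ne i0
    have hrest : ∑ j ∈ univ.erase i0, w j = 1 - w i0 := by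
      rw [← hsum, ← add_sum_erase univ w (mem_univ i0)]; ring
    have hlt1 : w i0 < 1 := by
      have : 0 < ∑ j ∈ univ.erase i0, w j :=
        sum_pos (fun j _ => hw j) ⟨j0, by simp [hj0]⟩
      linarith
    set δ := 2 * w i0 - 1 with hδ
    have hδ0 : 0 < δ := by linarith
    obtain ⟨N, hN⟩ := exists_nat_gt (max (2 * n / δ) (1 / ((1 - w i0) * δ)))
    have hN1 : 2 * n < δ * N := by
      have := (le_max_left _ _).trans_lt hN
      rw [div_lt_iff₀ hδ0] at this
      linarith
    have hN2 : 1 < (N * (1 - w i0)) * δ := by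
      have := (le_max_right _ _).trans_lt hN
      rw [div_lt_iff₀ (mul_pos (by linarith) hδ0)] at this
      linarith
    set c : Fin n → ℕ := fun j => if j = i0 then 0 else ⌈N * w j⌉₊ with hc
    have hci0 : c i0 = 0 := by simp [hc]
    set K : ℝ := ∑ j, (c j : ℝ) with hK
    have hKerase : K = ∑ j ∈ univ.erase i0, (c j : ℝ) := by
      rw [hK, ← add_sum_erase univ _ (mem_univ i0), hci0]; simp
    have hKlow : N * (1 - w i0) ≤ K := by
      rw [hKerase, ← hrest, mul_sum]
      refine sum_le_sum fun j hj => ?_
      rw [mem_erase] at hj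
      simp only [hc, if_neg hj.1]
      exact Nat.le_ceil _
    have hKup : K ≤ N * (1 - w i0) + n := by
      have h1 : K ≤ ∑ j ∈ univ.erase i0, (N * w j + 1) := by
        rw [hKerase]
        refine sum_le_sum fun j hj => ?_
        rw [mem_erase] at hj
        simp only [hc, if_neg hj.1]
        exact (Nat.ceil_lt_add_one (mul_nonneg (Nat.cast_nonneg _) (hw j).le)).le
      rw [sum_add_distrib, ← mul_sum, hrest, sum_const, nsmul_eq_mul, mul_one] at h1
      have h2 : ((univ.erase i0).card : ℝ) ≤ n := by
        have : (univ.erase i0).card ≤ n := by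
          refine (card_le_univ _).trans ?_
          simp
        exact_mod_cast this
      linarith
    have hKpos : 0 < K := by
      have : 0 < N * (1 - w i0) := by
        by_contra hneg
        have : (N * (1 - w i0)) * δ ≤ 0 := mul_nonpos_of_nonpos_of_nonneg (not_lt.1 hneg) hδ0.le
        linarith
      linarith
    have h2K : 2 * K ≤ N := by nlinarith
    have hKδ : 1 < K * δ := by nlinarith
    have hVal : ∑ g, val c K g = 2 * K := by rw [sum_val]; ring
    have hpos : ∀ g, 0 < val c K g := by
      rintro (_ | x)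
      · exact hKpos
      · exact one_pos
    set A : Fin n → Finset (Items c) := fun i => univ.filter fun g => owner c i0 g = i with hA
    have hAlloc : IsAllocation A := by
      refine ⟨fun i j hij => ?_, fun g => ⟨owner c i0 g, by simp [hA]⟩⟩
      rw [disjoint_left]
      intro g hg hg'
      simp only [hA, mem_filter] at hg hg'
      exact hij (hg.2.symm.trans hg'.2)
    have hFair : APSFair w (fun _ => val c K) A := by
      intro i
      by_cases hi : i = i0
      · subst hi
        simp only [hA]
        rw [sum_owner_eq c i K hci0]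
        refine APS_le (val c K) (fun g => if g = none then 1 else 0) (w i) (hw i).le
          ⟨fun g => by beta_reduce; split_ifs <;> norm_num, by simp⟩ K ?_
        intro S hS
        have hnone : none ∉ S := by
          intro hmem
          have h5 : (1 : ℝ) ≤ ∑ g ∈ S, (if g = none then (1 : ℝ) else 0) := by
            have := single_le_sum (f := fun g : Items c => if g = none then (1 : ℝ) else 0)
              (fun g _ => by split_ifs <;> norm_num) hmem
            simpa using this
          linarith
        have h6 : ∑ g ∈ S, val c K g ≤ ∑ g ∈ univ.erase none, val c K g := by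
          refine sum_le_sum_of_subset_of_nonneg ?_ fun g _ _ => (hpos g).le
          intro g hg
          rw [mem_erase]
          exact ⟨fun h => hnone (h ▸ hg), mem_univ _⟩
        have h7 := add_sum_erase univ (val c K) (mem_univ none)
        rw [hVal] at h7
        have h8 : val c K none = K := rfl
        linarith
      · simp only [hA]
        rw [sum_owner_ne c i0 K i hi]
        refine (APS_le_prop (val c K) (fun g => (hpos g).le) (by rw [hVal]; linarith) (w i)
          (hw i).le).trans ?_
        rw [hVal]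
        have h5 : (N : ℝ) * w i ≤ c i := by
          simp only [hc, if_neg hi]
          exact Nat.le_ceil _
        have h6 : w i * (2 * K) ≤ w i * N := mul_le_mul_of_nonneg_left h2K (hw i).le
        linarith
    have hProp := h (Items c) (val c K) hpos A hAlloc hFair i0
    rcases hProp with h5 | ⟨g, hg, h5⟩
    · rw [hVal] at h5
      simp only [hA] at h5
      rw [sum_owner_eq c i0 K hci0] at h5
      nlinarith
    · rw [hVal, sum_insert hg] at h5
      simp only [hA] at h5
      rw [sum_owner_eq c i0 K hci0] at h5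
      have h6 : val c K g = 1 := by
        rcases g with _ | x
        · exact absurd (mem_filter.2 ⟨mem_univ (none : Items c),
            (rfl : owner c i0 none = i0)⟩) hg
        · rfl
      rw [h6] at h5
      nlinarith
  tfae_finish

end Pool.Agent.Results.MP_4956c5_co.ApsPropOne
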